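import Mathlib
import Pool.Agent.H8.Inter

theorem Pool.Agent.Results.MP_2d1133_lc.No.result (s : ℝ) (h0 : 0 < s) (h1 : s < 1)
    (E : Set (EuclideanSpace ℝ (Fin 2))) (hE : dimH E = ENNReal.ofReal (1 + s))
    (t : ℝ) (ht : t < (1 + s) / 2) :
    ∃ f : EuclideanSpace ℝ (Fin 2) → ℝ, Continuous f ∧
      ENNReal.ofReal (max s t) < dimH (f '' E) := by
  obtain ⟨u, u1, u2⟩ := exists_between (show max 1 (2 * max s t) < 1 + s from
    max_lt (by linarith) (by rcases max_cases s t with h | h <;> linarith [h.1]))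
  have a1 : 1 < u := (le_max_left _ _).trans_lt u1
  have a2 : 2 * max s t < u := (le_max_right _ _).trans_lt u1
  have a3 : 0 ≤ max s t := h0.le.trans (le_max_left _ _)
  exact Pool.Agent.H8.Inter.main E u.toNNReal (max s t).toNNReal
    (by rw [← NNReal.coe_lt_coe, Real.coe_toNNReal _ (by linarith)]; exact a1)
    (hE ▸ (ENNReal.ofReal_lt_ofReal_iff (by linarith)).2 u2)
    (by
      rw [← NNReal.coe_lt_coe, Real.coe_toNNReal _ (by linarith), NNReal.coe_mul,
        Real.coe_toNNReal _ a3]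
      exact a2)
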